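import Pool.Agent.Helper14.TR.Defs
import Pool.Agent.Helper61.EL.Fix

/-!
Project TR, block TR-7a: a tensor that is killed by the Lie algebra of the orthogonal group of a block is fixed by
the special orthogonal group of the block.
-/

set_option linter.unusedSectionVars false
set_option linter.unusedVariables false
set_option linter.unusedSimpArgs false

open Matrix

namespace MH

variable {n : Type*} [Fintype n] [DecidableEq n]

/-- coordinates on the range of an idempotent -/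
private theorem exists_coord_h12 {e : Matrix n n ℂ} (hee : e * e = e) :
    ∃ (r : ℕ) (W : Matrix n (Fin r) ℂ) (V : Matrix (Fin r) n ℂ), V * W = 1 ∧ W * V = e := by
  classical
  let p : Submodule ℂ (n → ℂ) := LinearMap.range (Matrix.toLin' e)
  let B := Module.finBasis ℂ p
  let ι : p →ₗ[ℂ] (n → ℂ) := p.subtype
  let π : (n → ℂ) →ₗ[ℂ] p := (Matrix.toLin' e).rangeRestrict
  have hπ : ∀ x : p, π (ι x) = x := by
    rintro ⟨x, y, rfl⟩
    apply Subtype.ext
    change Matrix.toLin' e (Matrix.toLin' e y) = Matrix.toLin' e y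
    rw [Matrix.toLin'_apply, Matrix.toLin'_apply, Matrix.mulVec_mulVec, hee]
  refine ⟨Module.finrank ℂ p, LinearMap.toMatrix B (Pi.basisFun ℂ n) ι, LinearMap.toMatrix (Pi.basisFun ℂ n) B π,
    ?_, ?_⟩
  · rw [← LinearMap.toMatrix_comp]
    have h1 : π ∘ₗ ι = LinearMap.id := LinearMap.ext hπ
    rw [h1, LinearMap.toMatrix_id]
  · rw [← LinearMap.toMatrix_comp]
    have h1 : ι ∘ₗ π = Matrix.toLin' e := LinearMap.ext fun x => rfl
    rw [h1, LinearMap.toMatrix_eq_toMatrix', LinearMap.toMatrix'_toLin']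

/-- the torus elements of hyperbolic pairs fix the tensor (one pair at a time) -/
private theorem hyp_one_h12 {Q' : Matrix n n ℂ} (hs : Q'ᵀ = Q') {a b : ℕ} {t : (Fin a ⊕ Fin b → n) → ℂ}
    {e f : n → ℂ} {z : ℂ} (h5 : dL a b t (vecMulVec e (Q' *ᵥ f) - vecMulVec f (Q' *ᵥ e)) = 0)
    (h1 : e ⬝ᵥ (Q' *ᵥ e) = 0) (h2 : f ⬝ᵥ (Q' *ᵥ f) = 0)
    (h3 : e ⬝ᵥ (Q' *ᵥ f) = 1) (hz : z ≠ 0) : hyp Q' e f z ∈ Fixm61 a b t := by
  classical
  set Pe := vecMulVec e (Q' *ᵥ f) with hPe
  set Pf := vecMulVec f (Q' *ᵥ e) with hPf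
  have h4 : f ⬝ᵥ (Q' *ᵥ e) = 1 := by rw [dot_symm hs, h3]
  have ee : Pe * Pe = Pe := by rw [hPe, vmv_mul, dotProduct_comm, h3, one_smul]
  have ff : Pf * Pf = Pf := by rw [hPf, vmv_mul, dotProduct_comm, h4, one_smul]
  have ef : Pe * Pf = 0 := by rw [hPe, hPf, vmv_mul, dotProduct_comm, h2, zero_smul]
  have fe : Pf * Pe = 0 := by rw [hPe, hPf, vmv_mul, dotProduct_comm, h1, zero_smul]
  let R : ℤ → Matrix n n ℂ := fun p => if p = 1 then Pe else if p = -1 then Pf else if p = 0 then 1 - Pe - Pf else 0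
  have R1 : R 1 = Pe := rfl
  have Rm : R (-1) = Pf := rfl
  have R0 : R 0 = 1 - Pe - Pf := rfl
  have Ro : ∀ p, p ≠ 1 → p ≠ -1 → p ≠ 0 → R p = 0 := by
    intro p a b c
    simp only [R, if_neg a, if_neg b, if_neg c]
  have hR : Idm ({1, -1, 0} : Finset ℤ) R := by
    refine ⟨?_, ?_⟩
    · intro p q
      by_cases p1 : p = 1
      · subst p1
        by_cases q1 : q = 1
        · subst q1
          rw [R1, ee, if_pos rfl]
        · rw [if_neg (Ne.symm q1), R1]
          by_cases q2 : q = -1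
          · subst q2
            rw [Rm, ef]
          · by_cases q3 : q = 0
            · subst q3
              rw [R0, mul_sub, mul_sub, mul_one, ee, ef, sub_self, sub_zero]
            · rw [Ro q q1 q2 q3, mul_zero]
      · by_cases p2 : p = -1
        · subst p2
          rw [Rm]
          by_cases q1 : q = 1
          · subst q1
            rw [R1, fe, if_neg (by norm_num)]
          · by_cases q2 : q = -1
            · subst q2
              rw [Rm, ff, if_pos rfl]
            · rw [if_neg (Ne.symm q2)]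
              by_cases q3 : q = 0
              · subst q3
                rw [R0, mul_sub, mul_sub, mul_one, fe, ff, sub_zero, sub_self]
              · rw [Ro q q1 q2 q3, mul_zero]
        · by_cases p3 : p = 0
          · subst p3
            rw [R0]
            by_cases q1 : q = 1
            · subst q1
              rw [R1, sub_mul, sub_mul, one_mul, ee, fe, if_neg (by norm_num), sub_self, sub_zero]
            · by_cases q2 : q = -1
              · subst q2
                rw [Rm, sub_mul, sub_mul, one_mul, ef, ff, if_neg (by norm_num), sub_zero, sub_self]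
              · by_cases q3 : q = 0
                · subst q3
                  rw [R0, if_pos rfl, sub_mul, sub_mul, one_mul, mul_sub, mul_sub, mul_sub, mul_sub, mul_one, mul_one,
                    ee, ef, fe, ff]
                  abel
                · rw [Ro q q1 q2 q3, mul_zero, if_neg (Ne.symm q3)]
          · rw [Ro p p1 p2 p3, zero_mul]
            split_ifs <;> rfl
    · rw [Finset.sum_insert (by decide), Finset.sum_insert (by decide), Finset.sum_singleton, R1, Rm, R0]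
      abel
  have hz' : z⁻¹ ≠ 0 := inv_ne_zero hz
  have hsum : ∀ c : ℤ → ℂ, ∑ p ∈ ({1, -1, 0} : Finset ℤ), c p • R p = c 1 • Pe + (c (-1) • Pf + c 0 • (1 - Pe - Pf)) := by
    intro c
    rw [Finset.sum_insert (by decide), Finset.sum_insert (by decide), Finset.sum_singleton, R1, Rm, R0]
  have hhyp : ∀ z : ℂ, ∑ p ∈ ({1, -1, 0} : Finset ℤ), z ^ p • R p = hyp Q' e f z := by
    intro z
    rw [hsum (fun p => z ^ p)]
    unfold hyp
    rw [← hPe, ← hPf, _root_.zpow_one, _root_.zpow_neg_one, _root_.zpow_zero, sub_smul, sub_smul, one_smul, one_smul,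
      one_smul]
    abel
  refine ⟨hyp Q' e f z⁻¹, ?_, ?_⟩
  · unfold hyp
    rw [← hPe, ← hPf, inv_inv]
    have e2 : (z - 1) + (z⁻¹ - 1) + (z - 1) * (z⁻¹ - 1) = 0 := by
      field_simp
      ring
    have e3 : (1 + (z - 1) • Pe + (z⁻¹ - 1) • Pf) * (1 + (z⁻¹ - 1) • Pe + (z - 1) • Pf) =
        1 + ((z - 1) + (z⁻¹ - 1) + (z - 1) * (z⁻¹ - 1)) • Pe +
          ((z - 1) + (z⁻¹ - 1) + (z - 1) * (z⁻¹ - 1)) • Pf := by
      simp only [add_mul, mul_add, one_mul, mul_one, smul_mul_smul_comm, ee, ff, ef, fe, smul_zero, add_zero,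
        zero_add, add_smul, mul_comm (z⁻¹ - 1) (z - 1)]
      abel
    rw [e3, e2, zero_smul, zero_smul, add_zero, add_zero]
  · have h6 : Pe - Pf = ∑ p ∈ ({1, -1, 0} : Finset ℤ), (p : ℂ) • R p := by
      rw [hsum (fun p => (p : ℂ))]
      push_cast
      rw [one_smul, zero_smul, add_zero, neg_one_smul, sub_eq_add_neg]
    rw [h6] at h5
    have h7 := (hR.inv_iff a b t).2 h5 z hz
    rw [hhyp, hhyp] at h7
    exact h7

/-- A tensor that is killed by the Lie algebra of the orthogonal group of a block is fixed by the special orthogonal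
group of the block. -/
theorem so_fix_block (Q' : Matrix n n ℂ) (hQs : Q'ᵀ = Q') (hQd : Q'.det ≠ 0) {e : Matrix n n ℂ} (hee : e * e = e)
    (hadj : eᵀ * Q' = Q' * e) {a b : ℕ} {t : (Fin a ⊕ Fin b → n) → ℂ}
    (hk : ∀ X : Matrix n n ℂ, e * X * e = X → Xᵀ * Q' + Q' * X = 0 → dL a b t X = 0) {g : GL n ℂ}
    (h1 : (g : Matrix n n ℂ)ᵀ * Q' * (g : Matrix n n ℂ) = Q') (h2 : (g : Matrix n n ℂ) * e = e * (g : Matrix n n ℂ))
    (h3 : (g : Matrix n n ℂ) * (1 - e) = 1 - e) (h4 : (g : Matrix n n ℂ).det = 1) :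
    actF (slot a b (g : Matrix n n ℂ) ((g⁻¹ : GL n ℂ) : Matrix n n ℂ)) t = t := by
  obtain ⟨r, W, V, hVW, hWV⟩ := exists_coord_h12 hee
  have heW : e * W = W := by rw [← hWV, Matrix.mul_assoc, hVW, Matrix.mul_one]
  have hVe : V * e = V := by rw [← hWV, ← Matrix.mul_assoc, hVW, Matrix.one_mul]
  -- the form of the block
  set q : Matrix (Fin r) (Fin r) ℂ := Wᵀ * Q' * W with hq
  have hqs : qᵀ = q := by
    rw [hq, Matrix.transpose_mul, Matrix.transpose_mul, Matrix.transpose_transpose, hQs, ← Matrix.mul_assoc]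
  have hVq : Vᵀ * q = Q' * W := by
    rw [hq, ← Matrix.mul_assoc, ← Matrix.mul_assoc, ← Matrix.transpose_mul, hWV, hadj, Matrix.mul_assoc, heW]
  have hqd : q.det ≠ 0 := by
    intro h0
    obtain ⟨x, hx, hx0⟩ := Matrix.exists_mulVec_eq_zero_iff.2 h0
    have e1 : Q' *ᵥ (W *ᵥ x) = 0 := by
      rw [Matrix.mulVec_mulVec, ← hVq, ← Matrix.mulVec_mulVec, hx0, Matrix.mulVec_zero]
    have e2 : W *ᵥ x = 0 := Matrix.eq_zero_of_mulVec_eq_zero hQd e1
    apply hx
    calc x = (V * W) *ᵥ x := by rw [hVW, Matrix.one_mulVec]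
      _ = 0 := by rw [← Matrix.mulVec_mulVec, e2, Matrix.mulVec_zero]
  -- the submonoid
  let φ : Matrix (Fin r) (Fin r) ℂ → Matrix n n ℂ := fun y => 1 + W * (y - 1) * V
  have hφ1 : φ 1 = 1 := by
    simp only [φ, sub_self, Matrix.mul_zero, Matrix.zero_mul, add_zero]
  have hφm : ∀ x y, φ (x * y) = φ x * φ y := by
    intro x y
    have e1 : W * (x - 1) * V * (W * (y - 1) * V) = W * ((x - 1) * (y - 1)) * V := by
      calc W * (x - 1) * V * (W * (y - 1) * V) = W * (x - 1) * (V * W) * (y - 1) * V := by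
            simp only [Matrix.mul_assoc]
        _ = _ := by rw [hVW, Matrix.mul_one]; simp only [Matrix.mul_assoc]
    have e2 : x * y - 1 = (x - 1) + (y - 1) + (x - 1) * (y - 1) := by
      rw [sub_mul, mul_sub, mul_one, one_mul]
      abel
    simp only [φ]
    rw [e2, Matrix.mul_add, Matrix.mul_add, Matrix.add_mul, Matrix.add_mul, add_mul, one_mul, mul_add, mul_one, e1]
    abel
  let M : Submonoid (Matrix (Fin r) (Fin r) ℂ) :=
    { carrier := {y | φ y ∈ Fixm61 a b t}
      mul_mem' := by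
        intro x y hx hy
        change φ (x * y) ∈ Fixm61 a b t
        rw [hφm]
        exact Submonoid.mul_mem _ hx hy
      one_mem' := by
        change φ 1 ∈ Fixm61 a b t
        rw [hφ1]
        exact Submonoid.one_mem _ }
  have hvm : ∀ x y : Fin r → ℂ, W * vecMulVec x (q *ᵥ y) * V = vecMulVec (W *ᵥ x) (Q' *ᵥ (W *ᵥ y)) := by
    intro x y
    rw [Matrix.mul_vecMulVec, Matrix.vecMulVec_mul, ← Matrix.mulVec_transpose, Matrix.mulVec_mulVec, hVq,
      ← Matrix.mulVec_mulVec]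
  have hform : ∀ x y : Fin r → ℂ, (W *ᵥ x) ⬝ᵥ (Q' *ᵥ (W *ᵥ y)) = x ⬝ᵥ (q *ᵥ y) := by
    intro x y
    rw [hq, ← Matrix.mulVec_mulVec, ← Matrix.mulVec_mulVec, Matrix.dotProduct_mulVec x Wᵀ, Matrix.vecMul_transpose]
  have hφh : ∀ (x y : Fin r → ℂ) (z : ℂ), φ (hyp q x y z) = hyp Q' (W *ᵥ x) (W *ᵥ y) z := by
    intro x y z
    simp only [φ, hyp]
    have e1 : (1 : Matrix (Fin r) (Fin r) ℂ) + (z - 1) • vecMulVec x (q *ᵥ y) + (z⁻¹ - 1) • vecMulVec y (q *ᵥ x) - 1 =
        (z - 1) • vecMulVec x (q *ᵥ y) + (z⁻¹ - 1) • vecMulVec y (q *ᵥ x) := by abel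
    rw [e1, Matrix.mul_add, Matrix.add_mul, Matrix.mul_smul, Matrix.mul_smul, Matrix.smul_mul, Matrix.smul_mul, hvm,
      hvm, add_assoc]
  have hM : ∀ (x y : Fin r → ℂ) (z : ℂ), x ⬝ᵥ (q *ᵥ x) = 0 → y ⬝ᵥ (q *ᵥ y) = 0 → x ⬝ᵥ (q *ᵥ y) = 1 → z ≠ 0 →
      hyp q x y z ∈ M := by
    intro x y z a1 a2 a3 a4
    change φ (hyp q x y z) ∈ Fixm61 a b t
    rw [hφh]
    refine hyp_one_h12 hQs ?_ (by rw [hform, a1]) (by rw [hform, a2]) (by rw [hform, a3]) a4
    apply hk
    · have e1 : ∀ u v : Fin r → ℂ, e * vecMulVec (W *ᵥ u) (Q' *ᵥ (W *ᵥ v)) * e =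
          vecMulVec (W *ᵥ u) (Q' *ᵥ (W *ᵥ v)) := by
        intro u v
        rw [← hvm, ← Matrix.mul_assoc, ← Matrix.mul_assoc, heW, Matrix.mul_assoc _ V e, hVe]
      rw [mul_sub, sub_mul, e1, e1]
    · have e1 : ∀ u v : n → ℂ, (vecMulVec u (Q' *ᵥ v))ᵀ * Q' = Q' * vecMulVec v (Q' *ᵥ u) := by
        intro u v
        rw [Matrix.transpose_vecMulVec, Matrix.vecMulVec_mul, Matrix.mul_vecMulVec, ← Matrix.mulVec_transpose, hQs]
      rw [Matrix.transpose_sub, sub_mul, e1, e1, mul_sub]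
      abel
  -- the block of g
  set G : Matrix n n ℂ := (g : Matrix n n ℂ) with hG
  set y : Matrix (Fin r) (Fin r) ℂ := V * G * W with hy
  have hφy : φ y = G := by
    simp only [φ]
    have e1 : W * (y - 1) * V = e * G * e - e := by
      rw [Matrix.mul_sub, Matrix.sub_mul, Matrix.mul_one, hWV, hy]
      calc W * (V * G * W) * V - e = (W * V) * G * (W * V) - e := by simp only [Matrix.mul_assoc]
        _ = _ := by rw [hWV]
    have e2 : e * G * e = G * e := by
      rw [← h2, Matrix.mul_assoc, hee]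
    have e3 : G = G * e + (1 - e) := by
      rw [← h3, mul_sub, mul_one]
      abel
    rw [e1, e2]
    conv_rhs => rw [e3]
    abel
  have hyq : yᵀ * q * y = q := by
    have e1 : q * y = Wᵀ * Q' * (e * G * W) := by
      rw [hq, hy, ← hWV]
      simp only [Matrix.mul_assoc]
    have e2 : yᵀ * q * y = Wᵀ * Gᵀ * (Vᵀ * q) * (V * G * W) := by
      rw [hy, Matrix.transpose_mul, Matrix.transpose_mul]
      simp only [Matrix.mul_assoc]
    rw [e2, hVq]
    calc Wᵀ * Gᵀ * (Q' * W) * (V * G * W) = Wᵀ * Gᵀ * Q' * (W * V) * G * W := by simp only [Matrix.mul_assoc]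
      _ = Wᵀ * (Gᵀ * Q' * (e * G) * W) := by rw [hWV]; simp only [Matrix.mul_assoc]
      _ = Wᵀ * (Gᵀ * Q' * G * (e * W)) := by rw [← h2]; simp only [Matrix.mul_assoc]
      _ = q := by rw [h1, heW, hq, Matrix.mul_assoc]
  have hydet : y.det = 1 := by
    have e1 : (φ y).det = y.det := by
      simp only [φ]
      rw [Matrix.det_one_add_mul_comm, ← Matrix.mul_assoc, hVW, Matrix.one_mul, add_sub_cancel]
    rw [← e1, hφy, h4]
  apply fix_of_mem61
  rw [← hG, ← hφy]
  change y ∈ M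
  obtain ⟨l, hl, hgl⟩ := refl_gen hqs hqd hyq
  rw [hgl]
  refine pairs_mem (fun u v ha hb => pair_mem hqs hqd hM ha hb) l hl ?_
  -- the parity
  have hdet : ∀ l : List (Fin r → ℂ), (∀ u ∈ l, u ⬝ᵥ (q *ᵥ u) ≠ 0) →
      (l.map (refl q)).prod.det = (-1) ^ l.length := by
    intro l
    induction l with
    | nil => intro _; simp
    | cons u l ih =>
      intro h
      rw [List.map_cons, List.prod_cons, Matrix.det_mul, refl_det (h u (by simp)),
        ih (fun w hw => h w (by simp [hw])), List.length_cons, pow_succ]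
      ring
  have h5 := hdet l hl
  rw [← hgl, hydet] at h5
  by_contra hodd
  rw [Nat.not_even_iff_odd] at hodd
  rw [hodd.neg_one_pow] at h5
  norm_num at h5

end MH
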